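import Pool.Agent.H37.CPX.Targets

/-!
# Row PARM of cpx_modules: choice of the parameters (helper80)
-/

namespace Pool.Agent.H80.CPX

open Finset Pool.Agent.H37.CPX

/-- from a lower bound of `z` by `n / P ^ 50` to the bound with a real power -/
theorem parm_real (k n P z : ℕ) (hk : 150 ≤ k) (hn : 1 ≤ n) (hP : 1 ≤ P) (hlo : P ^ k ≤ n ^ 3)
    (hz : (n : ℝ) / (P : ℝ) ^ 50 + 2 ≤ z) :
    (2 : ℝ) ^ ((n : ℝ) ^ (1 - 150 / (k : ℝ))) * 4 ≤ 2 ^ z := by
  have hk0 : (0 : ℝ) < k := by exact_mod_cast (by omega : 0 < k)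
  have hn0 : (0 : ℝ) < n := by exact_mod_cast hn
  have hP0 : (0 : ℝ) < P := by exact_mod_cast hP
  have h1 : (P : ℝ) ≤ (n : ℝ) ^ (3 / (k : ℝ)) := by
    have h2 : ((P : ℝ) ^ k) ≤ (n : ℝ) ^ 3 := by exact_mod_cast hlo
    have h3 : ((P : ℝ) ^ k) ^ (1 / (k : ℝ)) ≤ ((n : ℝ) ^ 3) ^ (1 / (k : ℝ)) :=
      Real.rpow_le_rpow (by positivity) h2 (by positivity)
    have h4 : ((P : ℝ) ^ k) ^ (1 / (k : ℝ)) = P := by
      rw [← Real.rpow_natCast, ← Real.rpow_mul hP0.le, mul_one_div_cancel hk0.ne', Real.rpow_one]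
    have h5 : ((n : ℝ) ^ 3) ^ (1 / (k : ℝ)) = (n : ℝ) ^ (3 / (k : ℝ)) := by
      rw [← Real.rpow_natCast, ← Real.rpow_mul hn0.le]
      congr 1
      push_cast
      ring
    rw [h4, h5] at h3
    exact h3
  have h6 : (P : ℝ) ^ 50 ≤ (n : ℝ) ^ (150 / (k : ℝ)) := by
    have h7 : (P : ℝ) ^ 50 ≤ ((n : ℝ) ^ (3 / (k : ℝ))) ^ 50 := pow_le_pow_left₀ hP0.le h1 50
    have h8 : ((n : ℝ) ^ (3 / (k : ℝ))) ^ 50 = (n : ℝ) ^ (150 / (k : ℝ)) := by
      rw [← Real.rpow_natCast, ← Real.rpow_mul hn0.le]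
      congr 1
      push_cast
      ring
    rw [h8] at h7
    exact h7
  have h9 : (n : ℝ) ^ (1 - 150 / (k : ℝ)) ≤ (n : ℝ) / (P : ℝ) ^ 50 := by
    rw [Real.rpow_sub hn0, Real.rpow_one]
    exact div_le_div_of_nonneg_left hn0.le (by positivity) h6
  have h10 : (n : ℝ) ^ (1 - 150 / (k : ℝ)) + 2 ≤ z := by linarith
  have h11 : (2 : ℝ) ^ ((n : ℝ) ^ (1 - 150 / (k : ℝ))) * 4 =
      (2 : ℝ) ^ ((n : ℝ) ^ (1 - 150 / (k : ℝ)) + 2) := by
    rw [Real.rpow_add (by norm_num)]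
    norm_num
  rw [h11, ← Real.rpow_natCast]
  exact Real.rpow_le_rpow_of_exponent_le (by norm_num) h10

/-- the bound for `z` -/
theorem parm_z (n q u c z N : ℕ) (P : ℝ) (hP : P = (q : ℝ) ^ 3 * u) (hq : 1 ≤ q) (hu : 1 ≤ u)
    (hc : 1 ≤ c) (hn : q ^ 3 * u ≤ n) (h12 : 12 * c ≤ q * u) (hN : n < 3 * q * (N + 1))
    (hz : N < c * q * (z + 1)) : (n : ℝ) / P + 2 ≤ z := by
  have hq0 : (0 : ℝ) < q := by exact_mod_cast hq
  have hu0 : (0 : ℝ) < u := by exact_mod_cast hu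
  have hc0 : (0 : ℝ) < c := by exact_mod_cast hc
  have hP0 : 0 < P := by rw [hP]; positivity
  have h1 : 1 ≤ (n : ℝ) / P := by
    rw [le_div_iff₀ hP0, one_mul, hP]
    exact_mod_cast hn
  have h2 : n < 3 * q * (c * q * (z + 1)) := by
    have : 3 * q * (N + 1) ≤ 3 * q * (c * q * (z + 1)) := Nat.mul_le_mul_left _ hz
    omega
  have h3 : (n : ℝ) ≤ 3 * q * (c * q * (z + 1)) := by exact_mod_cast h2.le
  have h4 : 12 * (c : ℝ) ≤ q * u := by exact_mod_cast h12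
  -- `4 (n / P) ≤ z + 1`
  have h5 : 4 * ((n : ℝ) / P) ≤ z + 1 := by
    have h6 : (n : ℝ) / P * (q * u) ≤ 3 * c * (z + 1) := by
      have h7 : (n : ℝ) / P * (q * u) = n / (q : ℝ) ^ 2 := by
        rw [hP]
        field_simp
      rw [h7, div_le_iff₀ (by positivity)]
      nlinarith
    have h8 : (n : ℝ) / P * (12 * c) ≤ (n : ℝ) / P * (q * u) :=
      mul_le_mul_of_nonneg_left h4 (by linarith)
    have h9 : 3 * c * (4 * ((n : ℝ) / P)) ≤ 3 * c * (z + 1) := by nlinarith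
    exact le_of_mul_le_mul_left h9 (by positivity)
  linarith

/-- the numbers, if `P` is large -/
theorem parm_core (k E B0 n P q r : ℕ) (hk : 150 ≤ k) (hE : 1 ≤ E) (hPe : Even P)
    (hq : q = P ^ 16) (hr : r = P ^ 8)
    (hlo : P ^ k ≤ n ^ 3) (hhi : n ^ 3 < (2 * P) ^ k) (hn : 64 * 256 ^ k ≤ n)
    (h16 : 16 ≤ P) (hPE : 2 ^ E ≤ P) (hPB : B0 ≤ P) (hPc : 12 * ((8 * k + 40) * E) ≤ P)
    (hPk : 2 * ((k + 10) * k) + 16 ≤ P) :
    ∃ N z lam : ℕ, B0 ≤ N ∧ NumC N (2 * N) k (N / E) P z lam ∧ 3 * (N * q) ≤ n ∧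
      2 * N * (2 * q) ^ (k + 6) + N * (q + 1) ≤ n ^ (k + 8) ∧
      (n : ℝ) / (P : ℝ) ^ 50 + 2 ≤ z := by
  have hqr : q = r * r := by rw [hq, hr]; ring
  have hrP : P ≤ r := by rw [hr]; exact Nat.le_self_pow (by norm_num) P
  have hr1 : 1 ≤ r := by omega
  have hrq : r + 20 ≤ q := by
    have h1 : 16 * r ≤ r * r := Nat.mul_le_mul_right r (by omega)
    rw [hqr]
    omega
  have hq1 : 1 ≤ q := by omega
  have hPq : P ≤ q := by omega
  -- `P ^ 50 ≤ n`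
  have h50 : P ^ 50 ≤ n := by
    have h1 : (P ^ 50) ^ 3 ≤ n ^ 3 := by
      calc (P ^ 50) ^ 3 = P ^ 150 := by rw [← pow_mul]
        _ ≤ P ^ k := Nat.pow_le_pow_right (by omega) hk
        _ ≤ n ^ 3 := hlo
    exact (Nat.pow_le_pow_iff_left (by norm_num)).mp h1
  have h50' : P ^ 50 = q ^ 3 * P ^ 2 := by rw [hq]; ring
  obtain ⟨u, hu⟩ : ∃ u, u = P ^ 2 := ⟨_, rfl⟩
  have hu256 : 256 ≤ u := by
    rw [hu]
    exact le_trans (by norm_num) (Nat.pow_le_pow_left h16 2)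
  have huP : P ≤ u := by rw [hu]; exact Nat.le_self_pow (by norm_num) P
  have hqu : q ^ 3 * u ≤ n := by rw [hu, ← h50']; exact h50
  have hn1 : 64 ≤ n := by
    have : 1 ≤ 256 ^ k := Nat.one_le_pow _ _ (by norm_num)
    omega
  obtain ⟨c, hc⟩ : ∃ c, c = (8 * k + 40) * E := ⟨_, rfl⟩
  rw [← hc] at hPc
  have hcE : 2 * E ≤ c := by rw [hc]; exact Nat.mul_le_mul_right E (by omega)
  have hc8 : 8 * k + 40 ≤ c := by rw [hc]; exact Nat.le_mul_of_pos_right _ hE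
  have hc1 : 1 ≤ c := by omega
  obtain ⟨N, hN⟩ : ∃ N, N = n / (3 * q) := ⟨_, rfl⟩
  obtain ⟨z, hz⟩ : ∃ z, z = N / (c * q) := ⟨_, rfl⟩
  have hN1 : 3 * q * N ≤ n := by rw [hN]; exact Nat.mul_div_le _ _
  have hN2 : n < 3 * q * (N + 1) := by rw [hN]; exact Nat.lt_mul_div_succ _ (by omega)
  have hz1 : c * q * z ≤ N := by rw [hz]; exact Nat.mul_div_le _ _
  have hz2 : N < c * q * (z + 1) := by
    rw [hz]; exact Nat.lt_mul_div_succ _ (Nat.mul_pos (by omega) (by omega))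
  -- `N` is large
  have hNq : q * q ≤ N := by
    have h1 : q ^ 3 * u < 3 * q * (N + 1) := lt_of_le_of_lt hqu hN2
    have h2 : q * (q * q * u) < q * (3 * (N + 1)) := by
      calc q * (q * q * u) = q ^ 3 * u := by ring
        _ < 3 * q * (N + 1) := h1
        _ = q * (3 * (N + 1)) := by ring
    have h3 : q * q * u < 3 * (N + 1) := lt_of_mul_lt_mul_left h2 (Nat.zero_le _)
    have h4 : q * q * 256 ≤ q * q * u := Nat.mul_le_mul_left _ hu256
    have h5 : 1 ≤ q * q := Nat.mul_pos (by omega) (by omega)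
    omega
  have hqqN : q ≤ q * q := Nat.le_mul_self q
  have hNq' : q ≤ N := by omega
  have hqn : q ≤ n := by
    calc q ≤ q * N := Nat.le_mul_of_pos_right _ (by omega)
      _ ≤ 3 * (q * N) := Nat.le_mul_of_pos_left _ (by norm_num)
      _ = 3 * q * N := by ring
      _ ≤ n := hN1
  have hNn : N ≤ n := le_trans (Nat.le_mul_of_pos_left N (by omega)) hN1
  have hzN : z ≤ N := by
    calc z = 1 * z := by ring
      _ ≤ c * q * z := Nat.mul_le_mul_right _ (Nat.mul_pos (by omega) (by omega))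
      _ ≤ N := hz1
  have h2qn : 2 * q ≤ n := by
    have : q * q * q * 256 ≤ n := by
      calc q * q * q * 256 ≤ q * q * q * u := Nat.mul_le_mul_left _ hu256
        _ = q ^ 3 * u := by ring
        _ ≤ n := hqu
    have h6 : q ≤ q * q * q := Nat.le_mul_of_pos_left q (Nat.mul_pos (by omega) (by omega))
    omega
  have hzr : (n : ℝ) / (P : ℝ) ^ 50 + 2 ≤ z := by
    refine parm_z n q u c z N ((P : ℝ) ^ 50) ?_ hq1 (by omega) hc1 hqu ?_ hN2 hz2
    · rw [hu, ← Nat.cast_pow, h50']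
      push_cast
      ring
    · calc 12 * c ≤ P := hPc
        _ ≤ q := hPq
        _ = q * 1 := by ring
        _ ≤ q * u := Nat.mul_le_mul_left _ (by omega)
  have hz0 : 1 ≤ z := by
    have h1 : (0 : ℝ) ≤ (n : ℝ) / (P : ℝ) ^ 50 := by positivity
    have h2 : (2 : ℝ) ≤ z := by linarith
    have h3 : 2 ≤ z := by exact_mod_cast h2
    omega
  obtain ⟨L, hL⟩ : ∃ L, L = Nat.clog 2 n := ⟨_, rfl⟩
  have hL1 : n ≤ 2 ^ L := by rw [hL]; exact Nat.le_pow_clog (by norm_num) n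
  have hL2 : L ≤ k * (P + 1) := by
    have h1 : 2 ^ (L - 1) < n := by
      rw [hL]; exact Nat.pow_pred_clog_lt_self (by norm_num) (by omega)
    have h2 : n ≤ n ^ 3 := Nat.le_self_pow (by norm_num) n
    have h3 : (2 * P) ^ k ≤ (2 ^ (P + 1)) ^ k := by
      refine Nat.pow_le_pow_left ?_ k
      have : P < 2 ^ P := Nat.lt_two_pow_self
      rw [pow_succ]
      omega
    have h4 : 2 ^ (L - 1) < 2 ^ ((P + 1) * k) := by
      rw [pow_mul]
      omega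
    have h5 : L - 1 < (P + 1) * k := (Nat.pow_lt_pow_iff_right (by norm_num)).mp h4
    have h6 : (P + 1) * k = k * (P + 1) := by ring
    omega
  refine ⟨N, z, (k + 10) * L, by omega, ⟨by omega, by omega, hz0, h16, hPe, ?_, ?_, ?_, ?_, ?_⟩,
    ?_, ?_, hzr⟩
  · -- hlam
    rw [← hq]
    calc 64 * N * z * q ^ (k + 7) ≤ n * n * n * n ^ (k + 7) := by
          refine Nat.mul_le_mul (Nat.mul_le_mul (Nat.mul_le_mul hn1 hNn) (by omega)) ?_
          exact Nat.pow_le_pow_left hqn _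
      _ = n ^ (k + 10) := by ring
      _ ≤ (2 ^ L) ^ (k + 10) := Nat.pow_le_pow_left hL1 _
      _ = 2 ^ ((k + 10) * L) := by rw [← pow_mul]; congr 1; ring
  · -- hr
    have h1 : (k + 10) * L + 5 ≤ P * P := by
      have h2 : (k + 10) * L ≤ (k + 10) * (k * (P + 1)) := Nat.mul_le_mul_left _ hL2
      obtain ⟨w, hw⟩ : ∃ w, w = (k + 10) * k := ⟨_, rfl⟩
      rw [← hw] at hPk
      have h3 : (k + 10) * (k * (P + 1)) = w * (P + 1) := by rw [hw]; ring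
      rw [h3] at h2
      have h4 : (2 * w + 16) * P ≤ P * P := Nat.mul_le_mul_right P hPk
      have h5 : (2 * w + 16) * P = w * P + w * P + 16 * P := by ring
      have h6 : w * (P + 1) = w * P + w := by ring
      have h7 : w ≤ w * P := Nat.le_mul_of_pos_right w (by omega)
      omega
    have h2 : ((k + 10) * L + 5) ^ 2 ≤ (P * P) ^ 2 := Nat.pow_le_pow_left h1 2
    calc 50 * ((k + 10) * L + 5) ^ 2 ≤ 50 * (P * P) ^ 2 := Nat.mul_le_mul_left _ h2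
      _ ≤ (P * P) * (P * P) ^ 2 :=
          Nat.mul_le_mul_right _ (le_trans (by norm_num) (Nat.mul_le_mul h16 h16))
      _ = P ^ 6 := by ring
      _ ≤ P ^ 8 := Nat.pow_le_pow_right (by omega) (by norm_num)
  · -- hw
    rw [Nat.le_div_iff_mul_le (by omega)]
    calc 2 * z * E = 2 * E * 1 * z := by ring
      _ ≤ c * q * z := Nat.mul_le_mul_right _ (Nat.mul_le_mul hcE hq1)
      _ ≤ N := hz1
  · -- hm
    have h1 : (16 * (2 * N) ^ 2 * 64 ^ k) * 4 ^ k ≤ (P ^ 2) ^ k * 4 ^ k := by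
      calc (16 * (2 * N) ^ 2 * 64 ^ k) * 4 ^ k = N ^ 2 * (64 * (64 ^ k * 4 ^ k)) := by ring
        _ = N ^ 2 * (64 * 256 ^ k) := by
          rw [← mul_pow]
          norm_num
        _ ≤ n ^ 2 * n := Nat.mul_le_mul (Nat.pow_le_pow_left hNn 2) hn
        _ = n ^ 3 := by ring
        _ ≤ (n ^ 3) ^ 2 := Nat.le_self_pow (by norm_num) _
        _ ≤ ((2 * P) ^ k) ^ 2 := Nat.pow_le_pow_left hhi.le 2
        _ = ((2 * P) ^ 2) ^ k := by rw [← pow_mul, ← pow_mul, Nat.mul_comm k 2]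
        _ = (P ^ 2 * 4) ^ k := by congr 1; ring
        _ = (P ^ 2) ^ k * 4 ^ k := by rw [mul_pow]
    exact Nat.le_of_mul_le_mul_right h1 (by positivity)
  · -- ht
    obtain ⟨w, hw⟩ : ∃ w, w = N / E := ⟨_, rfl⟩
    rw [← hw]
    have hEP : E < 2 ^ E := Nat.lt_two_pow_self
    have hw1 : N < E * (w + 1) := by rw [hw]; exact Nat.lt_mul_div_succ _ (by omega)
    have hw2 : 1 ≤ w := by
      rw [hw]; exact (Nat.one_le_div_iff (by omega)).mpr (by omega)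
    have h1 : 2 * N + (8 * k + 40) * P ^ 16 * z + P ^ 8 + 20 ≤ 4 * N := by
      rw [← hq, ← hr]
      have h2 : (8 * k + 40) * q * z ≤ N := by
        calc (8 * k + 40) * q * z ≤ c * q * z :=
              Nat.mul_le_mul_right _ (Nat.mul_le_mul_right _ hc8)
          _ ≤ N := hz1
      omega
    have h3 : 4 * N ≤ E * (8 * (k + 2) * w) := by
      have h4 : E * (w + 1) ≤ 2 * (E * w) := by
        have h7 : E ≤ E * w := Nat.le_mul_of_pos_right E hw2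
        have h8 : E * (w + 1) = E * w + E := by ring
        omega
      have h5 : 8 * (E * w) * 1 ≤ 8 * (E * w) * (k + 2) := Nat.mul_le_mul_left _ (by omega)
      have h6 : 8 * (E * w) * (k + 2) = E * (8 * (k + 2) * w) := by ring
      omega
    calc 2 ^ (2 * N + (8 * k + 40) * P ^ 16 * z + P ^ 8 + 20) ≤ 2 ^ (4 * N) :=
          Nat.pow_le_pow_right (by norm_num) h1
      _ ≤ 2 ^ (E * (8 * (k + 2) * w)) := Nat.pow_le_pow_right (by norm_num) h3
      _ = (2 ^ E) ^ (8 * (k + 2) * w) := by rw [pow_mul]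
      _ ≤ P ^ (8 * (k + 2) * w) := Nat.pow_le_pow_left hPE _
  · calc 3 * (N * q) = 3 * q * N := by ring
      _ ≤ n := hN1
  · have h1 : (2 * q) ^ (k + 6) ≤ n ^ (k + 6) := Nat.pow_le_pow_left h2qn _
    have h2 : q + 1 ≤ n ^ (k + 6) := by
      have : n ≤ n ^ (k + 6) := Nat.le_self_pow (by omega) n
      omega
    calc 2 * N * (2 * q) ^ (k + 6) + N * (q + 1)
        ≤ 2 * n * n ^ (k + 6) + n * n ^ (k + 6) := by
          refine Nat.add_le_add (Nat.mul_le_mul (by omega) h1) (Nat.mul_le_mul hNn h2)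
      _ = 3 * (n * n ^ (k + 6)) := by ring
      _ ≤ n * (n * n ^ (k + 6)) := Nat.mul_le_mul_right _ (by omega)
      _ = n ^ (k + 8) := by ring

/-- Row PARM: choice of the parameters. -/
theorem pf_PARM : S_PARM := by
  intro k hk E B0 hE
  obtain ⟨P0, h0a, h0b, h0c, h0d, h0e⟩ : ∃ P0, 16 ≤ P0 ∧ 2 ^ E ≤ P0 ∧ B0 ≤ P0 ∧
      12 * ((8 * k + 40) * E) ≤ P0 ∧ 2 * ((k + 10) * k) + 16 ≤ P0 := by
    refine ⟨16 + 2 ^ E + B0 + 12 * ((8 * k + 40) * E) + 2 * ((k + 10) * k), ?_, ?_, ?_, ?_, ?_⟩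
    all_goals
      generalize 2 ^ E = a1
      generalize (8 * k + 40) * E = a2
      generalize (k + 10) * k = a3
      omega
  refine ⟨k + 8, (2 * P0) ^ k + 64 * 256 ^ k, fun n hn => ?_⟩
  have hn1 : (2 * P0) ^ k ≤ n := by omega
  have hn2 : 64 * 256 ^ k ≤ n := by omega
  have h256 : 1 ≤ 256 ^ k := Nat.one_le_pow _ _ (by norm_num)
  have hn0 : 1 ≤ n := by omega
  have hn3 : n ≤ n ^ 3 := Nat.le_self_pow (by norm_num) n
  obtain ⟨t, ht⟩ : ∃ t, t = Nat.findGreatest (fun t => (2 * t) ^ k ≤ n ^ 3) (n ^ 3) := ⟨_, rfl⟩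
  have hspec0 : (2 * P0) ^ k ≤ n ^ 3 := le_trans hn1 hn3
  have hP0n : P0 ≤ n ^ 3 := by
    have : 2 * P0 ≤ (2 * P0) ^ k := Nat.le_self_pow (by omega) _
    omega
  have htP0 : P0 ≤ t := by
    rw [ht]
    exact Nat.le_findGreatest hP0n hspec0
  have hlo : (2 * t) ^ k ≤ n ^ 3 := by
    rw [ht]
    exact Nat.findGreatest_spec (P := fun t => (2 * t) ^ k ≤ n ^ 3) hP0n hspec0
  have hhi : n ^ 3 < (2 * (t + 1)) ^ k := by
    by_contra hcon
    have h1 : (2 * (t + 1)) ^ k ≤ n ^ 3 := not_lt.mp hcon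
    have h2 : 2 * (t + 1) ≤ (2 * (t + 1)) ^ k := Nat.le_self_pow (by omega) _
    have h3 : t + 1 ≤ n ^ 3 := by omega
    have h4 : t + 1 ≤ t := by
      conv_rhs => rw [ht]
      exact Nat.le_findGreatest h3 h1
    omega
  have hhi' : n ^ 3 < (2 * (2 * t)) ^ k :=
    lt_of_lt_of_le hhi (Nat.pow_le_pow_left (by omega) k)
  have h2t : P0 ≤ 2 * t := by omega
  obtain ⟨N, z, lam, h1, h2, h3, h4, h5⟩ := parm_core k E B0 n (2 * t) ((2 * t) ^ 16)
    ((2 * t) ^ 8) hk hE (even_two_mul t) rfl rfl hlo hhi' hn2 (le_trans h0a h2t)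
    (le_trans h0b h2t) (le_trans h0c h2t) (le_trans h0d h2t) (le_trans h0e h2t)
  exact ⟨N, 2 * t, z, lam, h1, h2, h3, h4, parm_real k n (2 * t) z hk hn0 (by omega) hlo h5⟩

end Pool.Agent.H80.CPX
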